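import Pool.Agent.H43.Wco2

open Set Filter Topology Metric Function Real Pool.Agent.H43.Wco
open scoped ContDiff

namespace Pool.Agent.Results.MP_fcbc3e_an.Cex

def Ω : Set (E 3) := {v | (0 < v 0 ∨ 0 < v 1) ∧ v 0 * v 1 < 1}

noncomputable def A (c : ℝ) : ℝ := √(-log c) * sin √(-log c)

noncomputable def b (s : ℝ) (v : E 3) : ℝ := if 0 < v 0 ∧ 0 < v 1 then A (v 0 * v 1) *
  (smoothTransition (log (v 0) - log (v 1) + 2 * s) - smoothTransition (log (v 0) - log (v 1))) else 0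

noncomputable def ψ (s : ℝ) (v : E 3) : E 3 := ![exp s * v 0, exp (-s) * v 1, v 2 + b s v]

lemma prod (s x y : ℝ) : exp s * x * (exp (-s) * y) = x * y := by rw [exp_neg]; field_simp

lemma ψ_add (s t : ℝ) (v : E 3) : ψ s (ψ t v) = ψ (s + t) v := by
  have : b t v + b s (ψ t v) = b (s + t) v := by
    simp only [b, ψ, Matrix.cons_val_zero, Matrix.cons_val_one, mul_pos_iff_of_pos_left (exp_pos _), prod]
    split_ifs with h
    · rw [log_mul (exp_ne_zero _) h.1.ne', log_mul (exp_ne_zero _) h.2.ne', log_exp, log_exp]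
      ring_nf
    · simp
  ext i; fin_cases i
  · simp [ψ, exp_add, mul_assoc]
  · simp [ψ, exp_add]; ring
  · simp [← this, ψ, add_assoc]

lemma ψ_zero (v : E 3) : ψ 0 v = v := by ext i; fin_cases i <;> simp [ψ, b]

lemma ψ_it (n : ℕ) (v : E 3) : (ψ 1)^[n] v = ψ n v := by
  induction n with
  | zero => simp [ψ_zero]
  | succ n ih => rw [iterate_succ_apply', ih, ψ_add, add_comm]; simp

lemma Ω_open : IsOpen Ω := ((isOpen_lt continuous_const (continuous_apply 0)).union
  (isOpen_lt continuous_const (continuous_apply 1))).inter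
    (isOpen_lt ((continuous_apply 0).mul (continuous_apply 1)) continuous_const)

lemma data {𝕂 : Type} [RCLike 𝕂] {s : ℝ} (hs : |s| ≤ 1) : Data Ω (1 : E 3 → 𝕂) (ψ s) := by
  have hs := abs_le.1 hs
  have hb : ∀ v ∈ Ω, ContDiffAt ℝ ∞ (b s) v := fun v hv => by
    by_cases h : 0 < v 0 ∧ 0 < v 1
    · have p := mul_pos h.1 h.2
      have l : ContDiffAt ℝ ∞ (fun v : E 3 => √(-log (v 0 * v 1))) v :=
        (ContDiffAt.log (f := fun v : E 3 => v 0 * v 1) (by fun_prop) p.ne').neg.sqrt (by simpa using (log_neg p hv.2).ne)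
      have m : ContDiffAt ℝ ∞ (fun v : E 3 => log (v 0) - log (v 1)) v :=
        ((contDiffAt_apply ℝ ℝ 0 v).log h.1.ne').sub ((contDiffAt_apply ℝ ℝ 1 v).log h.2.ne')
      refine ((l.mul l.sin).mul ((smoothTransition.contDiffAt.comp v (m.add (contDiffAt_const
        (c := 2 * s)))).sub (smoothTransition.contDiffAt.comp v m))).congr_of_eventuallyEq ?_
      filter_upwards [((isOpen_lt continuous_const (continuous_apply 0)).inter
        (isOpen_lt continuous_const (continuous_apply 1))).mem_nhds h] with u hu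
      exact if_pos hu
    refine (contDiffAt_const (c := 0)).congr_of_eventuallyEq ?_
    have e := exp_pos 3
    by_cases h0 : 0 < v 0
    · have : exp 3 * v 1 < v 0 := by nlinarith [not_lt.1 fun c => h ⟨h0, c⟩]
      filter_upwards [(isOpen_lt (f := fun u : E 3 => exp 3 * u 1) (by fun_prop)
        (continuous_apply 0)).mem_nhds this] with u hu
      refine ite_eq_right_iff.2 fun h => ?_
      have := log_lt_log (mul_pos e h.2) hu
      rw [log_mul e.ne' h.2.ne', log_exp] at this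
      rw [smoothTransition.one_of_one_le (by linarith), smoothTransition.one_of_one_le (by linarith)]
      simp
    · have : exp 3 * v 0 < v 1 := by nlinarith [not_lt.1 h0, hv.1.resolve_left h0]
      filter_upwards [(isOpen_lt (f := fun u : E 3 => exp 3 * u 0) (by fun_prop)
        (continuous_apply 1)).mem_nhds this] with u hu
      refine ite_eq_right_iff.2 fun h => ?_
      have := log_lt_log (mul_pos e h.1) hu
      rw [log_mul e.ne' h.1.ne', log_exp] at this
      rw [smoothTransition.zero_of_nonpos (by linarith), smoothTransition.zero_of_nonpos (by linarith)]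
      simp
  refine ⟨Ω_open, contDiffOn_const, fun v hv => (contDiffAt_pi.2 fun i => ?_).contDiffWithinAt,
    fun v hv => ?_⟩
  · have := hb v hv
    fin_cases i <;> simp [ψ] <;> fun_prop
  · simpa [Ω, ψ, prod, exp_pos] using hv

lemma run (B : Set (E 3)) (h1 : IsCompact B) (h2 : B ⊆ Ω) : ∃ n, ∀ x ∈ B, (ψ 1)^[n] x ∉ B := by
  obtain ⟨c, c0, hc⟩ := h1.isBounded.exists_pos_norm_le
  obtain ⟨δ, δ0, hδ⟩ := h1.exists_forall_le' (f := fun v => max (v 0) (v 1)) (by fun_prop) (a := 0)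
    fun v hv => lt_max_iff.2 (h2 hv).1
  obtain ⟨W, hW⟩ : ∃ W : ℝ, W = |log δ| + |log c| := ⟨_, rfl⟩
  have W0 : 0 ≤ W := by rw [hW]; positivity
  obtain ⟨k, hk⟩ := exists_nat_ge (2 * W + 4 * c + 2)
  obtain ⟨u, hu⟩ : ∃ u : ℝ, u = π / 2 + k * (2 * π) := ⟨_, rfl⟩
  have u1 : 2 * W + 4 * c + 3 ≤ u := by nlinarith [pi_gt_three]
  have n1 := Nat.floor_le (sq_nonneg u)
  have n2 := Nat.lt_floor_add_one (u ^ 2)
  refine ⟨⌊u ^ 2⌋₊, fun v hv hw => ?_⟩
  generalize ⌊u ^ 2⌋₊ = n at *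
  rw [ψ_it] at hw
  have bd : ∀ v ∈ B, ∀ i, |v i| ≤ c := fun v hv i => (norm_le_pi_norm v i).trans (hc v hv)
  have a0 := (abs_le.1 (bd _ hw 0)).2
  have a1 := (abs_le.1 (bd _ hv 1)).2
  have a2 := abs_le.1 (bd _ hw 2)
  have a3 := abs_le.1 (bd _ hv 2)
  have a4 := hδ _ hw
  simp only [ψ, Matrix.cons_val_zero, Matrix.cons_val_one, Matrix.cons_val] at a0 a2 a4
  have l1 := abs_le.1 (show |log δ| ≤ W by linarith [abs_nonneg (log c)])
  have l2 := abs_le.1 (show |log c| ≤ W by linarith [abs_nonneg (log δ)])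
  have big : c < exp (n - 1) * δ := by
    rw [← exp_log c0, ← exp_log δ0, ← exp_add]; exact exp_lt_exp.2 (by nlinarith)
  have e1 := exp_le_exp.2 (show (n : ℝ) - 1 ≤ n by linarith)
  have e0 := exp_pos (n : ℝ)
  have x1 : v 0 < δ := by nlinarith
  have y1 : δ ≤ v 1 := (le_max_iff.1 (hδ v hv)).resolve_left (not_le.2 x1)
  have x2 : δ ≤ exp n * v 0 := (le_max_iff.1 a4).resolve_right (by
    rw [exp_neg, not_le, inv_mul_lt_iff₀ e0]; nlinarith)
  have x0 : 0 < v 0 := (mul_pos_iff_of_pos_left e0).1 (δ0.trans_le x2)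
  have y0 := δ0.trans_le y1
  have p1 := log_le_log δ0 x2
  have p2 := log_le_log (by positivity) a0
  have p3 := log_le_log δ0 y1
  have p4 := log_le_log y0 a1
  have p5 := log_lt_log x0 x1
  rw [log_mul e0.ne' x0.ne', log_exp] at p1 p2
  rw [b, if_pos ⟨x0, y0⟩, smoothTransition.one_of_one_le (by nlinarith),
    smoothTransition.zero_of_nonpos (by linarith), A, log_mul x0.ne' y0.ne'] at a2
  have s1 : u - 1 ≤ √(-(log (v 0) + log (v 1))) := le_sqrt_of_sq_le (by nlinarith)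
  have s2 : √(-(log (v 0) + log (v 1))) ≤ u + 1 := sqrt_le_iff.2 ⟨by linarith, by nlinarith⟩
  generalize √(-(log (v 0) + log (v 1))) = t at *
  have := one_sub_sq_div_two_le_cos (x := t - u)
  rw [← cos_add_nat_mul_two_pi _ k, ← sin_add_pi_div_two, show t - u + k * (2 * π) + π / 2 = t by
    rw [hu]; ring] at this
  have : 1 / 2 ≤ sin t := by nlinarith
  nlinarith

theorem result (𝕂 : Type) [RCLike 𝕂] : ∃ (Ω : Set (E 3)) (w : E 3 → 𝕂) (ψ : E 3 → E 3),
    Ω.Nonempty ∧ Data Ω w ψ ∧ Supercyclic Ω (T w ψ) ∧ ¬ Chaotic Ω (T w ψ) := by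
  refine ⟨Ω, 1, ψ 1, ⟨![1, 0, 0], by simp [Ω]⟩, data (by simp), supercyclic (data (by simp))
    (data (s := -1) (by simp)) (fun x _ => by simp [ψ_add, ψ_zero]) (fun x _ => by simp [ψ_add, ψ_zero])
    run, fun h => ?_⟩
  obtain ⟨m, hm⟩ := eventually_atTop.1 (sra (data (by simp)) h (K := Icc ![0, 1, 0] ![1 / 2, 1, 0] ∪
    Icc ![exp (-1), 0, 0] ![1, 1 / 2, 0]) (isCompact_Icc.union isCompact_Icc) (by
      rintro v (⟨a, b⟩ | ⟨a, b⟩) <;> have a0 := a 0 <;> have a1 := a 1 <;> have b0 := b 0 <;>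
        have b1 := b 1 <;> simp at a0 a1 b0 b1
      · exact ⟨Or.inr (by linarith), by nlinarith⟩
      · exact ⟨Or.inl ((exp_pos _).trans_le a0), by nlinarith⟩))
  obtain ⟨u, hu⟩ : ∃ u : ℝ, u = (m + 1 : ℕ) * π := ⟨_, rfl⟩
  have u1 : m + 3 ≤ u := by rw [hu]; push_cast; nlinarith [pi_gt_three]
  have m0 := Nat.cast_nonneg (α := ℝ) m
  have n1 := Nat.floor_le (sq_nonneg u)
  have n2 := Nat.lt_floor_add_one (u ^ 2)
  have k : ∀ x, 1 ≤ x → exp (-x) ≤ 1 / 2 := fun x h => by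
    rw [exp_neg, ← one_div]; gcongr; linarith [add_one_le_exp x]
  refine hm ⌊u ^ 2⌋₊ (Nat.le_floor (by nlinarith)) ![exp (-u ^ 2), 1, 0] (Or.inl ⟨?_, ?_⟩) (Or.inr ?_)
  · intro i; fin_cases i <;> simp [exp_nonneg]
  · intro i; fin_cases i <;> simp; simpa using k _ (by nlinarith)
  have : A (exp (-u ^ 2)) = 0 := by
    rw [A, log_exp, neg_neg, sqrt_sq (by linarith), hu, sin_nat_mul_pi, mul_zero]
  rw [ψ_it]
  constructor <;> intro i <;> fin_cases i <;> simp [ψ, b, this, exp_nonneg, ← exp_add]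
  · linarith
  · linarith
  · simpa using k _ (by nlinarith)

end Pool.Agent.Results.MP_fcbc3e_an.Cex
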